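import Pool.Agent.Lib.MP_6bc78b_nt.MS.L.Iface

/-! Project MS, Part IIIa, module MN: the main sums. -/

set_option autoImplicit false

open Filter Topology ArithmeticFunction

namespace Pool.Agent.Lib.MP_6bc78b_nt.MS.L.H03

theorem mn_PP_bound (c1 c2 u : ℝ) (h0 : 0 ≤ u) (h1 : u ≤ 1) : |PP c1 c2 u| ≤ |c1| + |c2| := by
  unfold PP
  have h2 : u ^ 2 ≤ 1 := by nlinarith
  have h3 : 0 ≤ u ^ 2 := sq_nonneg u
  calc |c1 * u + c2 * u ^ 2| ≤ |c1 * u| + |c2 * u ^ 2| := abs_add_le _ _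
    _ = |c1| * u + |c2| * u ^ 2 := by rw [abs_mul, abs_mul, abs_of_nonneg h0, abs_of_nonneg h3]
    _ ≤ |c1| * 1 + |c2| * 1 :=
        add_le_add (mul_le_mul_of_nonneg_left h1 (abs_nonneg _))
          (mul_le_mul_of_nonneg_left h2 (abs_nonneg _))
    _ = |c1| + |c2| := by ring

/-- `∑_{n ≤ N} log² n/(n-1)²` is bounded. -/
theorem mn_E_bound : ∃ KE : ℝ, 0 ≤ KE ∧ ∀ s : Finset ℕ, (∀ n ∈ s, 2 ≤ n) →
    ∑ n ∈ s, Real.log n ^ 2 / ((n : ℝ) - 1) ^ 2 ≤ KE := by
  have hs : Summable (fun n : ℕ => 64 * (n : ℝ) ^ (-(3 / 2) : ℝ)) :=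
    (Real.summable_nat_rpow.2 (by norm_num)).mul_left 64
  refine ⟨∑' n : ℕ, 64 * (n : ℝ) ^ (-(3 / 2) : ℝ), tsum_nonneg fun n => by positivity, ?_⟩
  intro s h2
  refine le_trans (Finset.sum_le_sum fun n hn => ?_)
    (hs.sum_le_tsum s fun n _ => by positivity)
  have hn2 : (2 : ℝ) ≤ n := by exact_mod_cast h2 n hn
  have hn0 : (0 : ℝ) < n := by linarith
  have hl : Real.log n ≤ (n : ℝ) ^ (1 / 4 : ℝ) / (1 / 4) :=
    Real.log_le_rpow_div hn0.le (by norm_num)
  have hl0 : 0 ≤ Real.log n := Real.log_nonneg (by linarith)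
  have hsq : Real.log n ^ 2 ≤ 16 * (n : ℝ) ^ (1 / 2 : ℝ) := by
    have h : Real.log n ^ 2 ≤ ((n : ℝ) ^ (1 / 4 : ℝ) / (1 / 4)) ^ 2 := pow_le_pow_left₀ hl0 hl 2
    have e : ((n : ℝ) ^ (1 / 4 : ℝ)) ^ 2 = (n : ℝ) ^ (1 / 2 : ℝ) := by
      rw [← Real.rpow_natCast, ← Real.rpow_mul hn0.le]
      norm_num
    calc Real.log n ^ 2 ≤ ((n : ℝ) ^ (1 / 4 : ℝ) / (1 / 4)) ^ 2 := h
      _ = 16 * ((n : ℝ) ^ (1 / 4 : ℝ)) ^ 2 := by ring
      _ = 16 * (n : ℝ) ^ (1 / 2 : ℝ) := by rw [e]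
  have hd : ((n : ℝ) / 2) ^ 2 ≤ ((n : ℝ) - 1) ^ 2 :=
    pow_le_pow_left₀ (by linarith) (by linarith) 2
  have hd0 : (0 : ℝ) < ((n : ℝ) / 2) ^ 2 := by positivity
  calc Real.log n ^ 2 / ((n : ℝ) - 1) ^ 2 ≤ (16 * (n : ℝ) ^ (1 / 2 : ℝ)) / ((n : ℝ) / 2) ^ 2 :=
        div_le_div₀ (by positivity) hsq hd0 hd
    _ = 64 * ((n : ℝ) ^ (1 / 2 : ℝ) / (n : ℝ) ^ (2 : ℝ)) := by
        rw [Real.rpow_two]; field_simp; ring
    _ = 64 * (n : ℝ) ^ (-(3 / 2) : ℝ) := by
        rw [← Real.rpow_sub hn0]; norm_num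

theorem mn (hd : DelStatement) (ha : MnaStatement) (hb : MnbStatement) (hj : JnStatement) :
    MnStatement := by
  intro κ1 κ0 th c1 c2 hth0 hth1
  obtain ⟨KA, hKA, hA⟩ := ha th c1 c2 hth0 hth1
  obtain ⟨KB, hKB, hB⟩ := hb th c1 c2 hth0 hth1
  obtain ⟨KE, hKE0, hKE⟩ := mn_E_bound
  set C : ℝ := |c1| + |c2| with hC
  have hC0 : 0 ≤ C := by positivity
  refine ⟨1 + C * (4 * |κ1| + 2 * |κ0|) + (KA + KB) + 4 * KA + |κ1| * 2 * (th * C + KA) +
    2 * C * KE, by positivity, ?_⟩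
  have hJ : ∀ i : ℕ, ∀ᶠ T : ℝ in atTop, |Jn T i| ≤ 2 * (cG T * Real.log T ^ i) := by
    intro i
    have h1 : ∀ᶠ T : ℝ in atTop, Jn T i / (cG T * Real.log T ^ i) < 2 :=
      (hj.2 i).eventually (gt_mem_nhds (by norm_num))
    have h2 : ∀ᶠ T : ℝ in atTop, -1 < Jn T i / (cG T * Real.log T ^ i) :=
      (hj.2 i).eventually (lt_mem_nhds (by norm_num))
    filter_upwards [h1, h2, eventually_gt_atTop (1 : ℝ)] with T h1 h2 hT
    have hL : 0 < Real.log T := Real.log_pos hT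
    have hcG : 0 < cG T := by
      unfold cG DD
      have : 0 < T := by linarith
      positivity
    have hpos : 0 < cG T * Real.log T ^ i := by positivity
    rw [div_lt_iff₀ hpos] at h1
    rw [lt_div_iff₀ hpos] at h2
    rw [abs_le]
    constructor
    · have h3 : -1 * (cG T * Real.log T ^ i) < Jn T i := h2
      linarith
    · linarith
  filter_upwards [hA, hB, hJ 0, hJ 1, hJ 2, eventually_ge_atTop (Real.exp 1)] with
    T hA hB hJ0 hJ1 hJ2 hT q hq c s z hc1 hc2 hs hz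
  have hT1 : 1 < T := lt_of_lt_of_le (Real.one_lt_exp_iff.2 one_pos) hT
  have hT0 : 0 < T := by linarith
  obtain ⟨hA1, hA2⟩ := hA q hq c z hc1 hc2 hz
  have hB1 := hB q hq c z hc1 hc2 hz
  set L : ℝ := Real.log T with hLdef
  have hL1 : 1 ≤ L := by
    rw [hLdef, Real.le_log_iff_exp_le hT0]; exact hT
  have hL0 : 0 < L := by linarith
  have hcG : 0 < cG T := by
    unfold cG DD
    positivity
  have hc0 : 0 < c := by linarith
  have hlc0 : 0 ≤ Real.log c := Real.log_nonneg hc1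
  have hlc1 : Real.log c ≤ th * L := by
    have := Real.log_le_log hc0 hc2
    rwa [Real.log_rpow hT0] at this
  have hthL : 0 < th * L := by positivity
  have hz0 : 0 ≤ z := by
    rw [hz]
    have : Real.log c / (th * L) ≤ 1 := by rw [div_le_one hthL]; exact hlc1
    linarith
  have hz1 : z ≤ 1 := by
    rw [hz]
    have : 0 ≤ Real.log c / (th * L) := by positivity
    linarith
  set y : ℝ := T ^ th / c with hy
  have hTth : 0 < T ^ th := Real.rpow_pos_of_pos hT0 _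
  have hy1 : 1 ≤ y := by rw [hy, le_div_iff₀ hc0, one_mul]; exact hc2
  have hy0 : 0 < y := by linarith
  have hlogy : Real.log y = th * L - Real.log c := by
    rw [hy, Real.log_div hTth.ne' hc0.ne', Real.log_rpow hT0]
  -- bound of the weights
  have hPm : ∀ m ∈ Finset.Icc 1 ⌊y⌋₊,
      |PP c1 c2 (1 - (Real.log m + Real.log c) / (th * L))| ≤ C := by
    intro m hm
    rw [Finset.mem_Icc] at hm
    have hm1 : (1 : ℝ) ≤ m := by exact_mod_cast hm.1
    have hmy : (m : ℝ) ≤ y := (Nat.le_floor_iff hy0.le).1 hm.2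
    have hlm0 : 0 ≤ Real.log m := Real.log_nonneg hm1
    have hlm : Real.log m ≤ th * L - Real.log c := by
      rw [← hlogy]; exact Real.log_le_log (by linarith) hmy
    apply mn_PP_bound
    · have : (Real.log m + Real.log c) / (th * L) ≤ 1 := by
        rw [div_le_one hthL]; linarith
      linarith
    · have : 0 ≤ (Real.log m + Real.log c) / (th * L) := by positivity
      linarith
  -- abbreviations
  set J0 := Jn T 0 with hJ0d
  set J1 := Jn T 1 with hJ1d
  set J2 := Jn T 2 with hJ2d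
  set P : ℕ → ℝ := fun m => PP c1 c2 (1 - (Real.log m + Real.log c) / (th * L)) with hP
  set S := (Finset.Icc 1 ⌊y⌋₊).filter (fun m => Squarefree m ∧ Nat.Coprime m q) with hS
  set Sp := (Finset.Icc 1 ⌊y⌋₊).filter (fun p => p.Prime ∧ Nat.Coprime p q) with hSp
  set S1 := ∑ p ∈ Sp, P p * (Real.log p / ((p : ℝ) - 1)) with hS1
  set S2 := ∑ p ∈ Sp, P p * (Real.log p ^ 2 / ((p : ℝ) - 1)) with hS2
  set S3 := ∑ m ∈ S, P m * ((La * La) m / (m.totient : ℝ)) with hS3
  set E := ∑ p ∈ Sp, P p * (Real.log p ^ 2 / ((p : ℝ) - 1) ^ 2) with hE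
  set I := th * (c1 * z ^ 2 / 2 + c2 * z ^ 3 / 3) with hI
  set Q := th ^ 2 * (c1 * z ^ 3 / 6 + c2 * z ^ 4 / 12) with hQ
  have hEb : |E| ≤ C * KE := by
    calc |E| ≤ ∑ p ∈ Sp, |P p * (Real.log p ^ 2 / ((p : ℝ) - 1) ^ 2)| :=
          Finset.abs_sum_le_sum_abs _ _
      _ ≤ ∑ p ∈ Sp, C * (Real.log p ^ 2 / ((p : ℝ) - 1) ^ 2) := by
          refine Finset.sum_le_sum fun p hp => ?_
          rw [abs_mul, abs_of_nonneg (by positivity :
            (0 : ℝ) ≤ Real.log p ^ 2 / ((p : ℝ) - 1) ^ 2)]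
          exact mul_le_mul_of_nonneg_right (hPm p (Finset.mem_filter.1 hp).1) (by positivity)
      _ = C * ∑ p ∈ Sp, Real.log p ^ 2 / ((p : ℝ) - 1) ^ 2 := by rw [Finset.mul_sum]
      _ ≤ C * KE := mul_le_mul_of_nonneg_left
          (hKE _ fun n hn => (Finset.mem_filter.1 hn).2.1.two_le) hC0
  -- the exact formula
  have hmain : Mn κ1 κ0 th c1 c2 T q c s =
      PP c1 c2 z * (J0 * (s ^ 2 / 2 + κ1 * s + κ0) + J1 * (κ1 - s) - J2 / 2) +
        (J0 / 2 * S2 - (s * J0 + J1) * S1 + κ1 * J0 * S1 + J0 * E) - J0 / 2 * S3 := by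
    have e1 : Mn κ1 κ0 th c1 c2 T q c s = ∑ m ∈ S,
        ((if m = 1 then P m / (m.totient : ℝ) *
          (J0 * ((Real.log m + s) ^ 2 / 2 + κ1 * (Real.log m + s) + κ0) +
            J1 * (κ1 - (Real.log m + s)) - J2 / 2) else 0) +
        (if m.Prime then P m / (m.totient : ℝ) *
          (-(Real.log m * (J0 * ((Real.log m + s) - κ1) + J1)) + J0 * Real.log m ^ 2 / 2 +
            J0 * (Real.log m ^ 2 * ((m : ℝ) / ((m : ℝ) - 1)))) else 0) -
        J0 / 2 * (P m * ((La * La) m / (m.totient : ℝ)))) := by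
      unfold Mn
      refine Finset.sum_congr rfl fun m hm => ?_
      have hsq : Squarefree m := (Finset.mem_filter.1 hm).2.1
      rw [hd κ1 κ0 T (Real.log m + s) m hsq]
      by_cases h1 : m = 1
      · have h2 : ¬ m.Prime := by rw [h1]; exact Nat.not_prime_one
        simp only [if_pos h1, if_neg h2, hP]
        ring
      · by_cases h2 : m.Prime
        · simp only [if_neg h1, if_pos h2, hP]
          ring
        · simp only [if_neg h1, if_neg h2, hP]
          ring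
    rw [e1, Finset.sum_sub_distrib, Finset.sum_add_distrib]
    congr 1
    · congr 1
      · rw [Finset.sum_ite_eq_of_mem' S 1 _ (by
          rw [hS, Finset.mem_filter, Finset.mem_Icc]
          exact ⟨⟨le_rfl, (Nat.le_floor_iff hy0.le).2 (by simpa using hy1)⟩,
            squarefree_one, Nat.coprime_one_left q⟩)]
        simp only [hP, Nat.totient_one, Nat.cast_one, Real.log_one, zero_add, div_one]
        rw [← hz]
      · have hfil : S.filter (fun m => m.Prime) = Sp := by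
          ext m
          simp only [hS, hSp, Finset.mem_filter]
          constructor
          · rintro ⟨⟨h1, _, h3⟩, h4⟩
            exact ⟨h1, h4, h3⟩
          · rintro ⟨h1, h2, h3⟩
            exact ⟨⟨h1, h2.squarefree, h3⟩, h2⟩
        rw [← Finset.sum_filter, hfil, hS1, hS2, hE, Finset.mul_sum, Finset.mul_sum,
          Finset.mul_sum, Finset.mul_sum, ← Finset.sum_sub_distrib, ← Finset.sum_add_distrib,
          ← Finset.sum_add_distrib]
        refine Finset.sum_congr rfl fun p hp => ?_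
        have hpp : p.Prime := (Finset.mem_filter.1 hp).2.1
        have hp2 : (2 : ℝ) ≤ p := by exact_mod_cast hpp.two_le
        have hp1 : (p : ℝ) - 1 ≠ 0 := by linarith
        rw [Nat.totient_prime hpp, Nat.cast_sub hpp.one_le, Nat.cast_one]
        field_simp
        ring
    · rw [hS3, Finset.mul_sum]
  rw [hmain]
  have hdiff : PP c1 c2 z * (J0 * (s ^ 2 / 2 + κ1 * s + κ0) + J1 * (κ1 - s) - J2 / 2) +
        (J0 / 2 * S2 - (s * J0 + J1) * S1 + κ1 * J0 * S1 + J0 * E) - J0 / 2 * S3 -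
      (PP c1 c2 z * (J0 * s ^ 2 / 2 - J1 * s - J2 / 2) - (J0 * s + J1) * (L * I)) =
      PP c1 c2 z * (J0 * κ1 * s + J0 * κ0 + J1 * κ1) +
        J0 / 2 * ((S2 - L ^ 2 * Q) - (S3 - L ^ 2 * Q)) - (s * J0 + J1) * (S1 - L * I) +
        κ1 * J0 * (L * I + (S1 - L * I)) + J0 * E := by ring
  rw [hdiff]
  have hJ0' : |J0| ≤ 2 * cG T := by simpa using hJ0
  have hJ1' : |J1| ≤ 2 * cG T * L := by
    have := hJ1; rw [pow_one] at this; linarith
  have hPz : |PP c1 c2 z| ≤ C := mn_PP_bound c1 c2 z hz0 hz1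
  have hIb : |I| ≤ th * C := by
    rw [hI, abs_mul, abs_of_pos hth0]
    refine mul_le_mul_of_nonneg_left ?_ hth0.le
    have hz2 : z ^ 2 ≤ 1 := pow_le_one₀ hz0 hz1
    have hz3 : z ^ 3 ≤ 1 := pow_le_one₀ hz0 hz1
    have hz2' : 0 ≤ z ^ 2 := by positivity
    have hz3' : 0 ≤ z ^ 3 := by positivity
    calc |c1 * z ^ 2 / 2 + c2 * z ^ 3 / 3| ≤ |c1 * z ^ 2 / 2| + |c2 * z ^ 3 / 3| := abs_add_le _ _
      _ = |c1| * (z ^ 2 / 2) + |c2| * (z ^ 3 / 3) := by
          rw [mul_div_assoc, mul_div_assoc, abs_mul, abs_mul, abs_of_nonneg (by positivity :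
            (0 : ℝ) ≤ z ^ 2 / 2), abs_of_nonneg (by positivity : (0 : ℝ) ≤ z ^ 3 / 3)]
      _ ≤ |c1| * 1 + |c2| * 1 := add_le_add
          (mul_le_mul_of_nonneg_left (by linarith) (abs_nonneg _))
          (mul_le_mul_of_nonneg_left (by linarith) (abs_nonneg _))
      _ = C := by rw [hC]; ring
  -- the five terms
  have t1 : |PP c1 c2 z * (J0 * κ1 * s + J0 * κ0 + J1 * κ1)| ≤
      C * (4 * |κ1| + 2 * |κ0|) * (cG T * L) := by
    have a1 : |J0 * κ1 * s| ≤ 2 * cG T * |κ1| * L := by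
      rw [abs_mul, abs_mul]
      exact mul_le_mul (mul_le_mul_of_nonneg_right hJ0' (abs_nonneg _)) hs (abs_nonneg _)
        (by positivity)
    have a2 : |J0 * κ0| ≤ 2 * cG T * |κ0| * L := by
      rw [abs_mul]
      calc |J0| * |κ0| ≤ 2 * cG T * |κ0| := mul_le_mul_of_nonneg_right hJ0' (abs_nonneg _)
        _ ≤ 2 * cG T * |κ0| * L := le_mul_of_one_le_right (by positivity) hL1
    have a3 : |J1 * κ1| ≤ 2 * cG T * |κ1| * L := by
      rw [abs_mul]
      calc |J1| * |κ1| ≤ 2 * cG T * L * |κ1| := mul_le_mul_of_nonneg_right hJ1' (abs_nonneg _)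
        _ = 2 * cG T * |κ1| * L := by ring
    rw [abs_mul]
    calc |PP c1 c2 z| * |J0 * κ1 * s + J0 * κ0 + J1 * κ1|
        ≤ C * (2 * cG T * |κ1| * L + 2 * cG T * |κ0| * L + 2 * cG T * |κ1| * L) := by
          refine mul_le_mul hPz ?_ (abs_nonneg _) hC0
          refine (abs_add_le _ _).trans (add_le_add ?_ a3)
          exact (abs_add_le _ _).trans (add_le_add a1 a2)
      _ = C * (4 * |κ1| + 2 * |κ0|) * (cG T * L) := by ring
  have t2 : |J0 / 2 * ((S2 - L ^ 2 * Q) - (S3 - L ^ 2 * Q))| ≤ (KA + KB) * (cG T * L) := by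
    rw [abs_mul]
    have b1 : |J0 / 2| ≤ cG T := by
      rw [abs_div, abs_of_pos (by norm_num : (0 : ℝ) < 2)]; linarith
    have b2 : |(S2 - L ^ 2 * Q) - (S3 - L ^ 2 * Q)| ≤ KA * L + KB * L :=
      (abs_sub _ _).trans (add_le_add hA2 hB1)
    calc |J0 / 2| * |(S2 - L ^ 2 * Q) - (S3 - L ^ 2 * Q)| ≤ cG T * (KA * L + KB * L) :=
          mul_le_mul b1 b2 (abs_nonneg _) hcG.le
      _ = (KA + KB) * (cG T * L) := by ring
  have t3 : |(s * J0 + J1) * (S1 - L * I)| ≤ 4 * KA * (cG T * L) := by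
    rw [abs_mul]
    have b1 : |s * J0 + J1| ≤ 4 * cG T * L := by
      have : |s * J0| ≤ L * (2 * cG T) := by
        rw [abs_mul]; exact mul_le_mul hs hJ0' (abs_nonneg _) hL0.le
      calc |s * J0 + J1| ≤ |s * J0| + |J1| := abs_add_le _ _
        _ ≤ L * (2 * cG T) + 2 * cG T * L := add_le_add this hJ1'
        _ = 4 * cG T * L := by ring
    calc |s * J0 + J1| * |S1 - L * I| ≤ (4 * cG T * L) * KA :=
          mul_le_mul b1 hA1 (abs_nonneg _) (by positivity)
      _ = 4 * KA * (cG T * L) := by ring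
  have t4 : |κ1 * J0 * (L * I + (S1 - L * I))| ≤ |κ1| * 2 * (th * C + KA) * (cG T * L) := by
    rw [abs_mul, abs_mul]
    have b1 : |L * I + (S1 - L * I)| ≤ (th * C + KA) * L := by
      calc |L * I + (S1 - L * I)| ≤ |L * I| + |S1 - L * I| := abs_add_le _ _
        _ ≤ L * (th * C) + KA := by
            refine add_le_add ?_ hA1
            rw [abs_mul, abs_of_pos hL0]
            exact mul_le_mul_of_nonneg_left hIb hL0.le
        _ ≤ L * (th * C) + KA * L := by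
            have hKL : KA ≤ KA * L := le_mul_of_one_le_right hKA.le hL1
            linarith
        _ = (th * C + KA) * L := by ring
    calc |κ1| * |J0| * |L * I + (S1 - L * I)| ≤ |κ1| * (2 * cG T) * ((th * C + KA) * L) :=
          mul_le_mul (mul_le_mul_of_nonneg_left hJ0' (abs_nonneg _)) b1 (abs_nonneg _)
            (by positivity)
      _ = |κ1| * 2 * (th * C + KA) * (cG T * L) := by ring
  have t5 : |J0 * E| ≤ 2 * C * KE * (cG T * L) := by
    rw [abs_mul]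
    calc |J0| * |E| ≤ 2 * cG T * (C * KE) := mul_le_mul hJ0' hEb (abs_nonneg _) (by positivity)
      _ ≤ 2 * cG T * (C * KE) * L := le_mul_of_one_le_right (by positivity) hL1
      _ = 2 * C * KE * (cG T * L) := by ring
  have hcGL : 0 ≤ cG T * L := by positivity
  calc |PP c1 c2 z * (J0 * κ1 * s + J0 * κ0 + J1 * κ1) +
        J0 / 2 * ((S2 - L ^ 2 * Q) - (S3 - L ^ 2 * Q)) - (s * J0 + J1) * (S1 - L * I) +
        κ1 * J0 * (L * I + (S1 - L * I)) + J0 * E|
      ≤ |PP c1 c2 z * (J0 * κ1 * s + J0 * κ0 + J1 * κ1)| +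
        |J0 / 2 * ((S2 - L ^ 2 * Q) - (S3 - L ^ 2 * Q))| + |(s * J0 + J1) * (S1 - L * I)| +
        |κ1 * J0 * (L * I + (S1 - L * I))| + |J0 * E| := by
        refine (abs_add_le _ _).trans (add_le_add_left ?_ _)
        refine (abs_add_le _ _).trans (add_le_add_left ?_ _)
        refine (abs_sub _ _).trans (add_le_add_left ?_ _)
        exact abs_add_le _ _
    _ ≤ C * (4 * |κ1| + 2 * |κ0|) * (cG T * L) + (KA + KB) * (cG T * L) +
        4 * KA * (cG T * L) + |κ1| * 2 * (th * C + KA) * (cG T * L) +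
        2 * C * KE * (cG T * L) := by
        linarith
    _ ≤ (1 + C * (4 * |κ1| + 2 * |κ0|) + (KA + KB) + 4 * KA + |κ1| * 2 * (th * C + KA) +
        2 * C * KE) * (cG T * L) := by
        have e : (1 + C * (4 * |κ1| + 2 * |κ0|) + (KA + KB) + 4 * KA +
            |κ1| * 2 * (th * C + KA) + 2 * C * KE) * (cG T * L) =
            (C * (4 * |κ1| + 2 * |κ0|) * (cG T * L) + (KA + KB) * (cG T * L) +
              4 * KA * (cG T * L) + |κ1| * 2 * (th * C + KA) * (cG T * L) +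
              2 * C * KE * (cG T * L)) + cG T * L := by ring
        rw [e]
        exact le_add_of_nonneg_right hcGL

end Pool.Agent.Lib.MP_6bc78b_nt.MS.L.H03
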